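import Pool.Agent.Lib.MP_64d474_lc.LF.RR31

set_option autoImplicit false

/-!
# Hitting sums of fractions with linear denominators
-/

namespace Pool.Agent.Lib.MP_64d474_lc.LF31

open MvPolynomial Finset

universe u

/-- Fractions in one variable are linearly independent. -/
theorem fractions_zero {F : Type u} [Field F] [Infinite F] {ι : Type*} (S : Finset ι)
    (a : ι → F) (q : ι → ℕ) (c : ι → F) (P : Polynomial F)
    (hinj : ∀ i ∈ S, ∀ j ∈ S, a i = a j → q i = q j → i = j) (E : Finset F)
    (h : ∀ t, t ∉ E → P.eval t + ∑ i ∈ S, c i * ((t + a i) ^ (q i + 1))⁻¹ = 0) :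
    ∀ i ∈ S, c i = 0 := by
  classical
  by_contra hcon
  push Not at hcon
  set S' := S.filter fun i => c i ≠ 0 with hS'
  have hne : S'.Nonempty := by
    obtain ⟨i, hi, hc⟩ := hcon
    exact ⟨i, Finset.mem_filter.2 ⟨hi, hc⟩⟩
  obtain ⟨i₀, hi₀, hmax⟩ := Finset.exists_max_image S' q hne
  have hi₀' := Finset.mem_filter.1 hi₀
  set Y : ι → Polynomial F := fun i => Polynomial.X + Polynomial.C (a i) with hY
  have hYev : ∀ i t, (Y i).eval t = t + a i := fun i t => by simp [hY]
  set U := S'.filter fun i => a i ≠ a i₀ with hU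
  set N : ι → Polynomial F := fun i =>
    if a i = a i₀ then Y i₀ ^ (q i₀ - q i) * ∏ j ∈ U, Y j ^ (q j + 1)
    else Y i₀ ^ (q i₀ + 1) * ∏ j ∈ U.erase i, Y j ^ (q j + 1) with hN
  set G : Polynomial F := P * (Y i₀ ^ (q i₀ + 1) * ∏ j ∈ U, Y j ^ (q j + 1)) +
    ∑ i ∈ S', Polynomial.C (c i) * N i with hG
  have hsum : ∀ t, ∑ i ∈ S, c i * ((t + a i) ^ (q i + 1))⁻¹ =
      ∑ i ∈ S', c i * ((t + a i) ^ (q i + 1))⁻¹ := by
    intro t
    rw [hS', Finset.sum_filter]
    refine Finset.sum_congr rfl fun i _ => ?_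
    split_ifs with hci
    · rfl
    · rw [not_not.1 hci, zero_mul]
  have hGz : ∀ t, t ∉ E ∪ S'.image (fun i => - a i) → G.eval t = 0 := by
    intro t ht
    rw [Finset.mem_union, not_or] at ht
    have hta : ∀ i ∈ S', t + a i ≠ 0 := by
      intro i hi h0
      exact ht.2 (Finset.mem_image.2 ⟨i, hi, by linear_combination -h0⟩)
    have h1 := h t ht.1
    rw [hsum] at h1
    have hNev : ∀ i ∈ S', (N i).eval t = ((t + a i) ^ (q i + 1))⁻¹ *
        ((t + a i₀) ^ (q i₀ + 1) * ∏ j ∈ U, (t + a j) ^ (q j + 1)) := by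
      intro i hi
      have h2 : (t + a i) ^ (q i + 1) ≠ 0 := pow_ne_zero _ (hta i hi)
      simp only [hN]
      split_ifs with hai
      · rw [Polynomial.eval_mul, Polynomial.eval_pow, Polynomial.eval_prod, hYev]
        simp only [Polynomial.eval_pow, hYev]
        rw [eq_inv_mul_iff_mul_eq₀ h2, hai, ← mul_assoc, ← pow_add]
        have h3 := hmax i hi
        congr 2
        omega
      · rw [Polynomial.eval_mul, Polynomial.eval_pow, Polynomial.eval_prod, hYev]
        simp only [Polynomial.eval_pow, hYev]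
        have hiU : i ∈ U := Finset.mem_filter.2 ⟨hi, hai⟩
        rw [eq_inv_mul_iff_mul_eq₀ h2, ← Finset.mul_prod_erase U _ hiU]
        ring
    rw [hG, Polynomial.eval_add, Polynomial.eval_mul, Polynomial.eval_mul, Polynomial.eval_pow,
      Polynomial.eval_prod, hYev, Polynomial.eval_finsetSum]
    simp only [Polynomial.eval_pow, hYev, Polynomial.eval_mul, Polynomial.eval_C]
    rw [Finset.sum_congr rfl fun i hi => by rw [hNev i hi, ← mul_assoc], ← Finset.sum_mul,
      ← add_mul, h1, zero_mul]
  have hG0 : G = 0 := by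
    refine Polynomial.eq_zero_of_infinite_isRoot G ?_
    refine Set.Infinite.mono ?_ (Finset.finite_toSet (E ∪ S'.image (fun i => - a i))).infinite_compl
    intro t ht
    exact hGz t (by simpa using ht)
  have h4 : G.eval (- a i₀) = c i₀ * ∏ j ∈ U, (- a i₀ + a j) ^ (q j + 1) := by
    rw [hG, Polynomial.eval_add, Polynomial.eval_mul, Polynomial.eval_mul, Polynomial.eval_pow,
      hYev, Polynomial.eval_finsetSum, neg_add_cancel, zero_pow (Nat.succ_ne_zero _), zero_mul,
      mul_zero, zero_add, Finset.sum_eq_single i₀]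
    · rw [Polynomial.eval_mul, Polynomial.eval_C, hN]
      simp only [if_true, Nat.sub_self, pow_zero, one_mul]
      rw [Polynomial.eval_prod]
      simp only [Polynomial.eval_pow, hYev]
    · intro i hi hii
      rw [Polynomial.eval_mul, hN]
      simp only
      split_ifs with hai
      · have h5 : q i < q i₀ := by
          refine lt_of_le_of_ne (hmax i hi) fun h6 => hii ?_
          exact hinj i (Finset.mem_filter.1 hi).1 i₀ hi₀'.1 hai h6
        rw [Polynomial.eval_mul, Polynomial.eval_pow, hYev, neg_add_cancel,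
          zero_pow (by omega), zero_mul, mul_zero]
      · rw [Polynomial.eval_mul, Polynomial.eval_pow, hYev, neg_add_cancel,
          zero_pow (Nat.succ_ne_zero _), zero_mul, mul_zero]
    · intro h5
      exact absurd hi₀ h5
  rw [hG0, Polynomial.eval_zero] at h4
  rcases mul_eq_zero.1 h4.symm with h5 | h5
  · exact hi₀'.2 h5
  · rw [Finset.prod_eq_zero_iff] at h5
    obtain ⟨j, hj, h6⟩ := h5
    have h7 := pow_eq_zero_iff (Nat.succ_ne_zero _) |>.1 h6
    exact (Finset.mem_filter.1 hj).2 (by linear_combination h7)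

section hit

variable {F : Type u} [Field F] {m : ℕ}

/-- `x` is a value of the generator with `s` seeds -/
def InZ (s : ℕ) (x : Fin m → F) : Prop := ∃ y z : Fin s → F, S3.pt y z = x

theorem InZ.mono {s s' : ℕ} (h : s ≤ s') {x : Fin m → F} (hx : InZ s x) : InZ s' x := by
  obtain ⟨y, z, rfl⟩ := hx
  obtain ⟨r, rfl⟩ := Nat.exists_eq_add_of_le h
  refine ⟨Fin.append y (fun _ => 0), Fin.append z (fun _ => 0), ?_⟩
  funext k
  rw [S3.pt_append]
  simp [S3.pt]

theorem InZ.add_smul {s : ℕ} {x : Fin m → F} (hx : InZ s x) (y₀ t : F) :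
    InZ (s + 1) (fun i => x i + t * S3.pt (m := m) (fun _ : Fin 1 => y₀) (fun _ => 1) i) := by
  obtain ⟨y, z, rfl⟩ := hx
  refine ⟨Fin.append y (fun _ => y₀), Fin.append z (fun _ => t), ?_⟩
  funext k
  rw [S3.pt_append]
  simp [S3.pt]

variable [CharZero F]

/-- A direction of the generator outside finitely many hyperplanes. -/
theorem exists_dir (L : List (F × (Fin m → F))) :
    ∃ y₀ : F, ∀ l ∈ L, l.2 = 0 ∨ lin l (S3.pt (fun _ : Fin 1 => y₀) (fun _ => 1)) ≠ 0 := by
  classical
  set p : F × (Fin m → F) → Polynomial F := fun l =>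
    ∑ k, Polynomial.C (l.2 k) * ∏ j ∈ Finset.univ.erase k,
      (Polynomial.X - Polynomial.C ((j : ℕ) : F)) with hp
  have hev : ∀ l y, (p l).eval y = lin l (S3.pt (fun _ : Fin 1 => y) (fun _ => 1)) := by
    intro l y
    simp only [hp, lin, S3.pt, Polynomial.eval_finsetSum, Polynomial.eval_mul, Polynomial.eval_C,
      Polynomial.eval_prod, Polynomial.eval_sub, Polynomial.eval_X, Fin.sum_univ_one, one_mul]
  have hne : ∀ l : F × (Fin m → F), l.2 ≠ 0 → p l ≠ 0 := by
    intro l hl h0
    apply hl
    funext k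
    have h1 := hev l ((k : ℕ) : F)
    rw [h0, Polynomial.eval_zero] at h1
    simp only [lin, S3.pt, Fin.sum_univ_one, one_mul] at h1
    rw [Finset.sum_eq_single k] at h1
    · rcases mul_eq_zero.1 h1.symm with h2 | h2
      · exact h2
      · exfalso
        rw [Finset.prod_eq_zero_iff] at h2
        obtain ⟨j, hj, h3⟩ := h2
        rw [sub_eq_zero] at h3
        exact (Finset.ne_of_mem_erase hj) (Fin.ext (Nat.cast_injective h3)).symm
    · intro i _ hik
      rw [Finset.prod_eq_zero (i := k) (by simp [Ne.symm hik]) (sub_self _), mul_zero]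
    · intro h2
      exact absurd (Finset.mem_univ k) h2
  have hprod : ((L.filter fun l => l.2 ≠ 0).map p).prod ≠ 0 := by
    rw [Ne, List.prod_eq_zero_iff, List.mem_map]
    rintro ⟨l, hl, h0⟩
    rw [List.mem_filter] at hl
    exact hne l (by simpa using hl.2) h0
  obtain ⟨y₀, hy₀⟩ : ∃ y₀, (((L.filter fun l => l.2 ≠ 0).map p).prod).eval y₀ ≠ 0 := by
    by_contra hno
    push Not at hno
    exact hprod (Polynomial.funext fun y => by rw [hno y, Polynomial.eval_zero])
  refine ⟨y₀, fun l hl => ?_⟩
  by_cases h2 : l.2 = 0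
  · exact Or.inl h2
  · refine Or.inr fun h3 => hy₀ ?_
    have h4 : p l ∣ ((L.filter fun l => l.2 ≠ 0).map p).prod :=
      List.dvd_prod (List.mem_map.2 ⟨l, List.mem_filter.2 ⟨hl, by simpa using h2⟩, rfl⟩)
    obtain ⟨r, hr⟩ := h4
    rw [hr, Polynomial.eval_mul, hev, h3, zero_mul]

/-- The polynomial case. -/
theorem hit_poly {e : ℕ} (he : 1 ≤ e) (P : MvPolynomial (Fin m) F) (hP : P ≠ 0)
    (hd : P.totalDegree ≤ e) (L : List (F × (Fin m → F))) (hL : ∀ l ∈ L, l ≠ 0) :
    ∃ x : Fin m → F, InZ e x ∧ (∀ l ∈ L, ev l x ≠ 0) ∧ eval x P ≠ 0 := by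
  classical
  have h1 : S3.gen F m e (P ::ₘ (L.map pol : Multiset (MvPolynomial (Fin m) F))).prod ≠ 0 := by
    apply S3.gen_prod_ne_zero
    intro Q hQ
    rcases Multiset.mem_cons.1 hQ with rfl | hQ
    · exact ⟨hP, hd⟩
    · rw [Multiset.mem_coe, List.mem_map] at hQ
      obtain ⟨l, hl, rfl⟩ := hQ
      exact ⟨pol_ne_zero (hL l hl), (totalDegree_pol l).trans he⟩
  obtain ⟨x, hx⟩ : ∃ x : Fin e ⊕ Fin e → F, eval x (S3.gen F m e
      (P ::ₘ (L.map pol : Multiset (MvPolynomial (Fin m) F))).prod) ≠ 0 := by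
    by_contra h
    exact h1 (MvPolynomial.funext fun x => by
      rw [map_zero]; by_contra hx; exact h ⟨x, hx⟩)
  rw [S3.eval_gen, Multiset.prod_cons, map_mul, Multiset.prod_coe] at hx
  refine ⟨_, ⟨_, _, rfl⟩, fun l hl h0 => ?_, left_ne_zero_of_mul hx⟩
  apply right_ne_zero_of_mul hx
  rw [map_list_prod, List.prod_eq_zero_iff, List.map_map, List.mem_map]
  exact ⟨l, hl, by rw [Function.comp_apply, eval_pol, h0]⟩

/-- The hitting theorem. -/
theorem hit {e : ℕ} (he : 1 ≤ e) : ∀ (δ : ℕ) (R : (Fin m → F) → F), R ∈ RR F m δ e → Nz R →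
    ∀ L : List (F × (Fin m → F)), (∀ l ∈ L, l ≠ 0) →
      ∃ x : Fin m → F, InZ (e + δ) x ∧ (∀ l ∈ L, ev l x ≠ 0) ∧ R x ≠ 0 := by
  classical
  intro δ
  induction δ using Nat.strong_induction_on with
  | _ δ ih =>
    intro R hR hNz L hL
    obtain ⟨L₀, hL₀⟩ := line_RR hR
    obtain ⟨y₀, hy₀⟩ := exists_dir (L₀ ++ L)
    set v : Fin m → F := S3.pt (fun _ : Fin 1 => y₀) (fun _ => 1) with hv
    obtain ⟨G, hG, L₁, Θ, hL₁, hΘ, hGR⟩ :=
      hL₀ v fun l hl => hy₀ l (List.mem_append_left _ hl)
    obtain ⟨P, c, hP, hc1, hc2, hc3⟩ := normal_form hG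
    by_cases hA : ∃ s ∈ c.support, Nz (c s)
    · -- a fraction does not vanish
      obtain ⟨s, hs, hsN⟩ := hA
      have hsδ := (hc1 s hs).2
      set L₂ : List (F × (Fin m → F)) := (c.support.toList.product c.support.toList).map
        (fun p => if p.1.1 = p.2.1 then p.1.1 else p.1.1 - p.2.1) with hL₂
      have hL₂0 : ∀ l ∈ L₂, l ≠ 0 := by
        intro l hl
        rw [hL₂, List.mem_map] at hl
        obtain ⟨⟨s₁, s₂⟩, hp, rfl⟩ := hl
        rw [List.pair_mem_product, Finset.mem_toList, Finset.mem_toList] at hp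
        simp only
        split_ifs with h12
        · exact (hc1 s₁ hp.1).1
        · exact sub_ne_zero.2 h12
      obtain ⟨x, hxZ, hxL, hxs⟩ := ih (δ - (s.2 + 1)) (by omega) (c s) (hc2 s) hsN
        (L ++ L₁ ++ L₂) (by
          intro l hl
          rcases List.mem_append.1 hl with hl | hl
          · rcases List.mem_append.1 hl with hl | hl
            · exact hL l hl
            · exact hL₁ l hl
          · exact hL₂0 l hl)
      have hxL' : ∀ l ∈ L, ev l x ≠ 0 := fun l hl =>
        hxL l (List.mem_append_left _ (List.mem_append_left _ hl))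
      have hxL₁ : ∀ l ∈ L₁, ev l x ≠ 0 := fun l hl =>
        hxL l (List.mem_append_left _ (List.mem_append_right _ hl))
      have hxL₂ : ∀ l ∈ L₂, ev l x ≠ 0 := fun l hl => hxL l (List.mem_append_right _ hl)
      by_contra hno
      push Not at hno
      apply hxs
      refine fractions_zero c.support (fun s => ev s.1 x) (fun s => s.2) (fun s => c s x)
        (P.map (eval x)) ?_ ((Θ.map fun θ => - ev θ x).toFinset ∪
          (L.map fun l => - ev l x / lin l v).toFinset) ?_ s hs
      · intro s₁ h₁ s₂ h₂ h3 h4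
        by_contra hne
        have h5 : s₁.1 ≠ s₂.1 := fun h => hne (Prod.ext h h4)
        have h6 : s₁.1 - s₂.1 ∈ L₂ := by
          rw [hL₂, List.mem_map]
          refine ⟨(s₁, s₂), ?_, ?_⟩
          · rw [List.pair_mem_product, Finset.mem_toList, Finset.mem_toList]
            exact ⟨h₁, h₂⟩
          · simp only
            rw [if_neg h5]
        apply hxL₂ _ h6
        rw [ev_sub]
        exact sub_eq_zero.2 h3
      · intro t ht
        rw [Finset.mem_union, not_or, List.mem_toFinset, List.mem_toFinset, List.mem_map,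
          List.mem_map] at ht
        have h7 := hGR x t hxL₁ (fun θ hθ h0 => ht.1 ⟨θ, hθ, by linear_combination -h0⟩)
        rw [hc3] at h7
        have h8 : R (fun i => x i + t * v i) = 0 := by
          refine hno _ ((hxZ.add_smul y₀ t).mono (by omega)) fun l hl h0 => ?_
          rw [ev_add] at h0
          rcases hy₀ l (List.mem_append_right _ hl) with h9 | h9
          · have h10 : lin l v = 0 := by simp [lin, h9]
            rw [h10, mul_zero, add_zero] at h0
            exact hxL' l hl h0
          · apply ht.2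
            refine ⟨l, hl, ?_⟩
            rw [div_eq_iff h9]
            linear_combination -h0
        exact h7.symm.trans h8
    · -- all fractions vanish
      have hA' : ∀ s, ∃ M : List (F × (Fin m → F)), (∀ l ∈ M, l ≠ 0) ∧
          ∀ x, (∀ l ∈ M, ev l x ≠ 0) → c s x = 0 := by
        intro s
        by_cases hs : s ∈ c.support
        · have h1 : ¬ Nz (c s) := fun h => hA ⟨s, hs, h⟩
          unfold Nz at h1
          push Not at h1
          obtain ⟨M, hM, hM'⟩ := h1
          exact ⟨M, hM, hM'⟩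
        · refine ⟨[], by simp, fun x _ => ?_⟩
          rw [Finsupp.notMem_support_iff.1 hs]
          rfl
      choose M hM1 hM2 using hA'
      set L₂ : List (F × (Fin m → F)) := (c.support.toList.map M).flatten with hL₂
      have hL₂0 : ∀ l ∈ L₂, l ≠ 0 := by
        intro l hl
        rw [hL₂, List.mem_flatten] at hl
        obtain ⟨N, hN, hlN⟩ := hl
        obtain ⟨s, _, rfl⟩ := List.mem_map.1 hN
        exact hM1 s l hlN
      have hkey : ∀ x, (∀ l ∈ L₁ ++ L₂ ++ Θ, ev l x ≠ 0) → R x = eval x (P.coeff 0) := by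
        intro x hx
        have h1 := hGR x 0
          (fun l hl => hx l (List.mem_append_left _ (List.mem_append_left _ hl)))
          (fun θ hθ => by rw [zero_add]; exact hx θ (List.mem_append_right _ hθ))
        rw [hc3] at h1
        have h2 : (c.sum fun s g => g x * ((0 + ev s.1 x) ^ (s.2 + 1))⁻¹) = 0 := by
          rw [Finsupp.sum]
          refine Finset.sum_eq_zero fun s hs => ?_
          rw [hM2 s x, zero_mul]
          intro l hl
          refine hx l (List.mem_append_left _ (List.mem_append_right _ ?_))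
          rw [hL₂, List.mem_flatten]
          exact ⟨M s, List.mem_map.2 ⟨s, Finset.mem_toList.2 hs, rfl⟩, hl⟩
        rw [h2, add_zero, ← Polynomial.coeff_zero_eq_eval_zero, Polynomial.coeff_map] at h1
        simp only [zero_mul, add_zero] at h1
        exact h1
      have hall : ∀ l ∈ L₁ ++ L₂ ++ Θ, l ≠ 0 := by
        intro l hl
        rcases List.mem_append.1 hl with hl | hl
        · rcases List.mem_append.1 hl with hl | hl
          · exact hL₁ l hl
          · exact hL₂0 l hl
        · exact hΘ l hl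
      have hP0 : P.coeff 0 ≠ 0 := by
        intro h0
        obtain ⟨x, hx, hRx⟩ := hNz _ hall
        apply hRx
        rw [hkey x hx, h0, map_zero]
      obtain ⟨x, hxZ, hxL, hxP⟩ := hit_poly he (P.coeff 0) hP0 (hP 0) (L ++ (L₁ ++ L₂ ++ Θ)) (by
        intro l hl
        rcases List.mem_append.1 hl with hl | hl
        · exact hL l hl
        · exact hall l hl)
      refine ⟨x, hxZ.mono (Nat.le_add_right _ _),
        fun l hl => hxL l (List.mem_append_left _ hl), ?_⟩
      rw [hkey x fun l hl => hxL l (List.mem_append_right _ hl)]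
      exact hxP

end hit

end Pool.Agent.Lib.MP_64d474_lc.LF31
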