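import Pool.Agent.Lib.MP_64d474_lc.LF.RR31

set_option autoImplicit false

/-!
# The derivatives of the determinant of a bordered layered matrix of linear forms
-/

namespace Pool.Agent.Lib.MP_64d474_lc.LF31

open MvPolynomial Finset

universe u

section level

variable {D : Type*} [CommRing D] {n q : ℕ}

/-- a matrix whose nonzero entries go to a higher level -/
def Up (lev : Fin n → Fin q) (M : Matrix (Fin n) (Fin n) D) : Prop :=
  ∀ i j, M i j ≠ 0 → lev i < lev j

theorem Up.pow {lev : Fin n → Fin q} {M : Matrix (Fin n) (Fin n) D} (h : Up lev M) :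
    ∀ (k : ℕ) (i j : Fin n), (M ^ k) i j ≠ 0 → (lev i : ℕ) + k ≤ lev j := by
  intro k
  induction k with
  | zero =>
    intro i j hij
    rw [pow_zero, Matrix.one_apply] at hij
    by_cases h1 : i = j
    · subst h1; simp
    · rw [if_neg h1] at hij; exact absurd rfl hij
  | succ k ih =>
    intro i j hij
    rw [pow_succ, Matrix.mul_apply] at hij
    obtain ⟨l, _, hl⟩ := Finset.exists_ne_zero_of_sum_ne_zero hij
    have h1 := ih i l (left_ne_zero_of_mul hl)
    have h2 : (lev l : ℕ) < lev j := h l j (right_ne_zero_of_mul hl)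
    omega

theorem Up.pow_eq_zero {lev : Fin n → Fin q} {M : Matrix (Fin n) (Fin n) D} (h : Up lev M) :
    M ^ q = 0 := by
  ext i j
  by_contra h0
  have h1 := h.pow q i j h0
  have h2 := (lev j).isLt
  omega

theorem Up.neg {lev : Fin n → Fin q} {M : Matrix (Fin n) (Fin n) D} (h : Up lev M) :
    Up lev (-M) := by
  intro i j hij
  refine h i j fun h0 => hij ?_
  rw [Matrix.neg_apply, h0, neg_zero]

/-- The determinant of a matrix that is triangular with respect to the levels. -/
theorem det_level (lev : Fin n → Fin q) (B : Matrix (Fin n) (Fin n) D)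
    (h : ∀ i j, i ≠ j → B i j ≠ 0 → lev i < lev j) : B.det = ∏ i, B i i := by
  set σ := Tuple.sort lev with hσ
  have hmono := Tuple.monotone_sort lev
  have h1 : (B.submatrix σ σ).det = ∏ i, (B.submatrix σ σ) i i := by
    apply Matrix.det_of_isUpperTriangular
    intro i j hij
    simp only [id_eq] at hij
    by_contra h0
    have h2 := h (σ i) (σ j) (fun h3 => by
      rw [σ.injective h3] at hij
      exact lt_irrefl _ hij) h0
    have h3 := hmono hij.le
    simp only [Function.comp_apply] at h3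
    exact absurd h2 (not_lt.2 h3)
  rw [Matrix.det_submatrix_equiv_self] at h1
  rw [h1]
  simp only [Matrix.submatrix_apply]
  exact Equiv.prod_comp σ (fun i => B i i)

/-- The inverse of a matrix that is triangular with respect to the levels. -/
theorem inv_level (lev : Fin n → Fin q) (B : Matrix (Fin n) (Fin n) D) (b : Fin n → D)
    (hb : ∀ i, B i i * b i = 1)
    (h : ∀ i j, i ≠ j → B i j ≠ 0 → lev i < lev j) :
    B * ((∑ k ∈ range q, (Matrix.of fun i j => if i = j then 0 else - (b i * B i j)) ^ k) *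
      Matrix.diagonal b) = 1 := by
  set M : Matrix (Fin n) (Fin n) D := Matrix.of fun i j => if i = j then 0 else - (b i * B i j)
    with hM
  have hup : Up lev M := by
    intro i j hij
    rw [hM, Matrix.of_apply] at hij
    by_cases h1 : i = j
    · rw [if_pos h1] at hij; exact absurd rfl hij
    · rw [if_neg h1] at hij
      exact h i j h1 fun h0 => hij (by rw [h0, mul_zero, neg_zero])
  have hB : B = Matrix.diagonal (fun i => B i i) * (1 - M) := by
    ext i j
    rw [Matrix.diagonal_mul, Matrix.sub_apply, Matrix.one_apply, hM, Matrix.of_apply]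
    by_cases h1 : i = j
    · subst h1; simp
    · rw [if_neg h1, if_neg h1, zero_sub, neg_neg, ← mul_assoc, hb, one_mul]
  rw [hB, mul_assoc, ← mul_assoc (1 - M), mul_neg_geom_sum, hup.pow_eq_zero, sub_zero, one_mul,
    Matrix.diagonal_mul_diagonal]
  have h2 : (fun i => B i i * b i) = fun _ => 1 := funext hb
  rw [h2, Matrix.diagonal_one]

end level

section dual

variable {F : Type u} [Field F] {m : ℕ}

/-- the value at `x + ε e_κ` -/
noncomputable def dv (κ : Fin m) (x : Fin m → F) : MvPolynomial (Fin m) F →ₐ[F] DualNumber F :=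
  aeval fun i => algebraMap F (DualNumber F) (x i) + if i = κ then DualNumber.eps else 0

theorem deg_pderiv (κ : Fin m) (f : MvPolynomial (Fin m) F) (hf : f.totalDegree ≤ 1) :
    (pderiv κ f).totalDegree ≤ 0 := by
  rw [totalDegree]
  apply Finset.sup_le
  intro d hd
  rw [mem_support_iff, coeff_pderiv] at hd
  have h1 : coeff (d + Finsupp.single κ 1) f ≠ 0 := left_ne_zero_of_mul hd
  have h2 := le_totalDegree (mem_support_iff.2 h1)
  rw [Finsupp.sum_add_index' (fun _ => rfl) (fun _ _ _ => rfl),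
    Finsupp.sum_single_index rfl] at h2
  omega

theorem dv_spec (κ : Fin m) (x : Fin m → F) (f : MvPolynomial (Fin m) F) :
    (dv κ x f).fst = eval x f ∧ (dv κ x f).snd = eval x (pderiv κ f) := by
  induction f using MvPolynomial.induction_on with
  | C a =>
    rw [dv, aeval_C, TrivSqZeroExt.algebraMap_eq_inl]
    simp
  | add p r hp hr =>
    rw [map_add, TrivSqZeroExt.fst_add, TrivSqZeroExt.snd_add, hp.1, hr.1, hp.2, hr.2]
    simp
  | mul_X p i hp =>
    have h1 : dv κ x (X i) = algebraMap F (DualNumber F) (x i) +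
        if i = κ then DualNumber.eps else 0 := by rw [dv, aeval_X]
    rw [map_mul, TrivSqZeroExt.fst_mul, TrivSqZeroExt.snd_mul, hp.1, hp.2, h1,
      TrivSqZeroExt.algebraMap_eq_inl, Derivation.leibniz, pderiv_X]
    by_cases hi : i = κ
    · subst hi
      simp
      ring
    · simp [hi]
      ring

theorem dv_fst (κ : Fin m) (x : Fin m → F) (f : MvPolynomial (Fin m) F) :
    (dv κ x f).fst = eval x f := (dv_spec κ x f).1

theorem dv_snd (κ : Fin m) (x : Fin m → F) (f : MvPolynomial (Fin m) F) :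
    (dv κ x f).snd = eval x (pderiv κ f) := (dv_spec κ x f).2

/-- the inverse of a dual number -/
noncomputable def dinv (z : DualNumber F) : DualNumber F :=
  TrivSqZeroExt.inl z.fst⁻¹ + TrivSqZeroExt.inr (-(z.fst⁻¹ * z.fst⁻¹ * z.snd))

theorem mul_dinv (z : DualNumber F) (hz : z.fst ≠ 0) : z * dinv z = 1 := by
  refine TrivSqZeroExt.ext ?_ ?_
  · simp [dinv, hz]
  · simp only [dinv, TrivSqZeroExt.snd_mul, TrivSqZeroExt.snd_add, TrivSqZeroExt.snd_inl,
      TrivSqZeroExt.snd_inr, TrivSqZeroExt.fst_add, TrivSqZeroExt.fst_inl, TrivSqZeroExt.fst_inr,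
      smul_eq_mul, MulOpposite.smul_eq_mul_unop, MulOpposite.unop_op, TrivSqZeroExt.snd_one,
      add_zero, zero_add]
    field_simp
    ring

/-- the class of the functions with values in the dual numbers -/
def MD (δ e : ℕ) (G : (Fin m → F) → DualNumber F) : Prop :=
  (fun x => (G x).fst) ∈ RR F m δ e ∧ (fun x => (G x).snd) ∈ RR F m (δ + 1) e

theorem MD.mono {δ δ' e e' : ℕ} (h : δ ≤ δ') (h' : e ≤ e') {G : (Fin m → F) → DualNumber F}
    (hG : MD δ e G) : MD δ' e' G :=
  ⟨RR_mono h h' hG.1, RR_mono (Nat.succ_le_succ h) h' hG.2⟩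

theorem MD.zero (δ e : ℕ) : MD δ e (fun _ => 0 : (Fin m → F) → DualNumber F) :=
  ⟨Submodule.zero_mem (RR F m δ e), Submodule.zero_mem (RR F m (δ + 1) e)⟩

theorem MD.add {δ e : ℕ} {G H : (Fin m → F) → DualNumber F} (hG : MD δ e G) (hH : MD δ e H) :
    MD δ e (fun x => G x + H x) :=
  ⟨Submodule.add_mem _ hG.1 hH.1, Submodule.add_mem _ hG.2 hH.2⟩

theorem MD.neg {δ e : ℕ} {G : (Fin m → F) → DualNumber F} (hG : MD δ e G) :
    MD δ e (fun x => - G x) :=
  ⟨Submodule.neg_mem _ hG.1, Submodule.neg_mem _ hG.2⟩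

theorem MD.sub {δ e : ℕ} {G H : (Fin m → F) → DualNumber F} (hG : MD δ e G) (hH : MD δ e H) :
    MD δ e (fun x => G x - H x) :=
  ⟨Submodule.sub_mem _ hG.1 hH.1, Submodule.sub_mem _ hG.2 hH.2⟩

theorem MD.sum {δ e : ℕ} {ι : Type*} (s : Finset ι) (G : ι → (Fin m → F) → DualNumber F)
    (hG : ∀ i ∈ s, MD δ e (G i)) : MD δ e (fun x => ∑ i ∈ s, G i x) := by
  classical
  induction s using Finset.induction_on with
  | empty => simpa using MD.zero δ e
  | insert a s ha ih =>
    simp only [Finset.sum_insert ha]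
    exact (hG a (by simp)).add (ih fun i hi => hG i (by simp [hi]))

theorem MD.mul {δ δ' e e' : ℕ} {G H : (Fin m → F) → DualNumber F} (hG : MD δ e G)
    (hH : MD δ' e' H) : MD (δ + δ') (e + e') (fun x => G x * H x) := by
  refine ⟨?_, ?_⟩
  · simp only [TrivSqZeroExt.fst_mul]
    exact RR_mul hG.1 hH.1
  · have h1 : (fun x => (G x * H x).snd) = ((fun x => (G x).fst) * fun x => (H x).snd) +
        (fun x => (G x).snd) * fun x => (H x).fst := by
      funext x
      simp only [TrivSqZeroExt.snd_mul, Pi.add_apply, Pi.mul_apply, smul_eq_mul,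
        MulOpposite.smul_eq_mul_unop, MulOpposite.unop_op]
    rw [h1]
    refine Submodule.add_mem _ ?_ ?_
    · have h2 := RR_mul hG.1 hH.2
      rwa [← add_assoc] at h2
    · have h2 := RR_mul hG.2 hH.1
      have h3 : δ + 1 + δ' = δ + δ' + 1 := by omega
      rwa [h3] at h2

theorem MD.const (a : F) : MD 0 0 (fun _ => algebraMap F (DualNumber F) a :
    (Fin m → F) → DualNumber F) := by
  refine ⟨?_, ?_⟩
  · have h1 := RR_poly (F := F) (m := m) (δ := 0) (e := 0) (C a) (by rw [totalDegree_C])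
    simpa [TrivSqZeroExt.algebraMap_eq_inl] using h1
  · have h1 : (fun _ => (algebraMap F (DualNumber F) a).snd : (Fin m → F) → F) = 0 := by
      funext x
      simp [TrivSqZeroExt.algebraMap_eq_inl]
    rw [h1]
    exact Submodule.zero_mem _

theorem MD.prod {δ e : ℕ} {ι : Type*} (s : Finset ι) (G : ι → (Fin m → F) → DualNumber F)
    (hG : ∀ i ∈ s, MD δ e (G i)) : MD (s.card * δ) (s.card * e) (fun x => ∏ i ∈ s, G i x) := by
  classical
  induction s using Finset.induction_on with
  | empty =>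
    simp only [Finset.prod_empty, Finset.card_empty, zero_mul]
    simpa using MD.const (m := m) (1 : F)
  | insert a s ha ih =>
    simp only [Finset.prod_insert ha, Finset.card_insert_of_notMem ha]
    have h1 := (hG a (by simp)).mul (ih fun i hi => hG i (by simp [hi]))
    refine h1.mono (le_of_eq (by ring)) (le_of_eq (by ring))

theorem MD.det {δ e c : ℕ} (G : (Fin m → F) → Matrix (Fin c) (Fin c) (DualNumber F))
    (hG : ∀ i j, MD δ e (fun x => G x i j)) : MD (c * δ) (c * e) (fun x => (G x).det) := by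
  simp only [Matrix.det_apply']
  refine MD.sum _ _ fun σ _ => ?_
  have h1 := MD.prod (univ : Finset (Fin c)) (fun i x => G x (σ i) i) fun i _ => hG _ _
  rw [Finset.card_univ, Fintype.card_fin] at h1
  have h2 := (MD.const (m := m) (((Equiv.Perm.sign σ : ℤ) : F))).mul h1
  rw [zero_add, zero_add] at h2
  simpa using h2

/-- An entry of degree at most one. -/
theorem MD.entry (κ : Fin m) (a : MvPolynomial (Fin m) F) (ha : a.totalDegree ≤ 1) :
    MD 0 1 (fun x => dv κ x a) := by
  refine ⟨?_, ?_⟩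
  · simp only [dv_fst]
    exact RR_poly a ha
  · simp only [dv_snd]
    exact RR_poly _ ((deg_pderiv κ a ha).trans (by omega))

/-- A polynomial of degree at most one is an affine form. -/
theorem exists_form (a : MvPolynomial (Fin m) F) (ha : a.totalDegree ≤ 1) (h0 : a ≠ 0) :
    ∃ l : F × (Fin m → F), l ≠ 0 ∧ ∀ x, eval x a = ev l x := by
  classical
  have hsum : a = pol (coeff 0 a, fun i => coeff (Finsupp.single i 1) a) := by
    ext d
    rw [pol, coeff_add, coeff_C, coeff_sum]
    by_cases hd : d = 0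
    · subst hd
      rw [if_pos rfl, Finset.sum_eq_zero, add_zero]
      intro i _
      rw [coeff_C_mul, coeff_X, if_neg (by simp), mul_zero]
    · rw [if_neg (Ne.symm hd), zero_add]
      by_cases hd1 : ∃ i, d = Finsupp.single i 1
      · obtain ⟨i, rfl⟩ := hd1
        rw [Finset.sum_eq_single i]
        · rw [coeff_C_mul, coeff_X, if_pos rfl, mul_one]
        · intro j _ hji
          rw [coeff_C_mul, coeff_X, if_neg, mul_zero]
          intro h
          exact hji (Finsupp.single_left_injective one_ne_zero h)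
        · intro h
          exact absurd (Finset.mem_univ i) h
      · have h1 : coeff d a = 0 := by
          by_contra hc
          have h2 := (le_totalDegree (mem_support_iff.2 hc)).trans ha
          have h3 : d.degree ≤ 1 := h2
          rcases Nat.le_one_iff_eq_zero_or_eq_one.1 h3 with h4 | h4
          · exact hd ((Finsupp.degree_eq_zero_iff d).1 h4)
          · obtain ⟨i, hi⟩ := (Finsupp.sum_eq_one_iff d).1 h4
            exact hd1 ⟨i, hi⟩
        rw [h1]
        symm
        refine Finset.sum_eq_zero fun i _ => ?_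
        rw [coeff_C_mul, coeff_X, if_neg, mul_zero]
        intro h
        exact hd1 ⟨i, h.symm⟩
  refine ⟨(coeff 0 a, fun i => coeff (Finsupp.single i 1) a), fun hl => h0 ?_, fun x => ?_⟩
  · rw [hsum, hl]
    simp [pol]
  · rw [← eval_pol, ← hsum]

/-- The inverse of an entry. -/
theorem MD.inv (κ : Fin m) (a : MvPolynomial (Fin m) F) (ha : a.totalDegree ≤ 1) (h0 : a ≠ 0) :
    MD 1 0 (fun x => dinv (dv κ x a)) := by
  obtain ⟨l, hl, hev⟩ := exists_form a ha h0
  have h1 : (fun x => (ev l x)⁻¹) ∈ RR F m 1 0 := RR_inv le_rfl l hl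
  have h2 : (fun x => eval x (pderiv κ a)) ∈ RR F m 0 0 := RR_poly _ (deg_pderiv κ a ha)
  refine ⟨?_, ?_⟩
  · have h3 : (fun x => (dinv (dv κ x a)).fst) = fun x => (ev l x)⁻¹ := by
      funext x
      simp [dinv, dv_fst, hev]
    rw [h3]
    exact h1
  · have h3 : (fun x => (dinv (dv κ x a)).snd) =
        (-1 : F) • ((fun x => (ev l x)⁻¹) * (fun x => (ev l x)⁻¹) *
          fun x => eval x (pderiv κ a)) := by
      funext x
      simp [dinv, dv_fst, dv_snd, hev]
    rw [h3]
    have h4 := RR_mul (RR_mul h1 h1) h2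
    rw [add_zero, add_zero, add_zero] at h4
    exact Submodule.smul_mem _ _ h4

end dual

section bordered

variable {F : Type u} [Field F] {m n c q : ℕ}

/-- A square matrix of polynomials of degree at most one with `c` last rows and columns that are
arbitrary; the rest has a nonzero diagonal and is triangular with respect to `q` levels. -/
def Layered (q : ℕ) (A : Matrix (Fin n ⊕ Fin c) (Fin n ⊕ Fin c) (MvPolynomial (Fin m) F)) : Prop :=
  (∀ i j, (A i j).totalDegree ≤ 1) ∧ (∀ i, A (Sum.inl i) (Sum.inl i) ≠ 0) ∧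
    ∃ lev : Fin n → Fin q, ∀ i j, i ≠ j → A (Sum.inl i) (Sum.inl j) ≠ 0 → lev i < lev j

theorem pow_mem_MD (M : (Fin m → F) → Matrix (Fin n) (Fin n) (DualNumber F))
    (hM : ∀ i j, MD 1 1 (fun x => M x i j)) :
    ∀ (k : ℕ) (i j : Fin n), MD k k (fun x => (M x ^ k) i j) := by
  intro k
  induction k with
  | zero =>
    intro i j
    simp only [pow_zero, Matrix.one_apply]
    by_cases h : i = j
    · simpa [h] using MD.const (m := m) (1 : F)
    · simpa [h] using MD.zero (F := F) (m := m) 0 0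
  | succ k ih =>
    intro i j
    simp only [pow_succ, Matrix.mul_apply]
    exact MD.sum _ _ fun l _ => (ih i l).mul (hM l j)

/-- The Schur complement. -/
theorem schur (κ : Fin m)
    (A : Matrix (Fin n ⊕ Fin c) (Fin n ⊕ Fin c) (MvPolynomial (Fin m) F)) (hA : Layered q A) :
    ∃ S : (Fin m → F) → DualNumber F, MD (c * q) (c * (q + 1)) S ∧
      ∀ x, (∀ i, eval x (A (Sum.inl i) (Sum.inl i)) ≠ 0) →
        dv κ x A.det = (∏ i, dv κ x (A (Sum.inl i) (Sum.inl i))) * S x := by
  classical
  obtain ⟨hdeg, hdiag, lev, hlev⟩ := hA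
  set M : (Fin m → F) → Matrix (Fin n) (Fin n) (DualNumber F) := fun x => Matrix.of fun i j =>
    if i = j then 0 else
      - (dinv (dv κ x (A (Sum.inl i) (Sum.inl i))) * dv κ x (A (Sum.inl i) (Sum.inl j))) with hM
  set b : (Fin m → F) → Fin n → DualNumber F := fun x i =>
    dinv (dv κ x (A (Sum.inl i) (Sum.inl i))) with hb
  set Y : (Fin m → F) → Matrix (Fin n) (Fin n) (DualNumber F) := fun x =>
    (∑ k ∈ range q, M x ^ k) * Matrix.diagonal (b x) with hY
  have hYe : ∀ x i j, Y x i j = ∑ k ∈ range q, (M x ^ k) i j * b x j := by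
    intro x i j
    have h1 : Y x i j = ((∑ k ∈ range q, M x ^ k) * Matrix.diagonal (b x)) i j := rfl
    rw [h1, Matrix.mul_diagonal, Matrix.sum_apply, Finset.sum_mul]
  set Z : (Fin m → F) → Matrix (Fin c) (Fin c) (DualNumber F) := fun x =>
    (A.map (dv κ x)).toBlocks₂₂ - (A.map (dv κ x)).toBlocks₂₁ *
      Y x * (A.map (dv κ x)).toBlocks₁₂ with hZ
  have hMD : ∀ i j, MD 1 1 (fun x => M x i j) := by
    intro i j
    simp only [hM, Matrix.of_apply]
    by_cases h : i = j
    · simpa [h] using MD.zero (F := F) (m := m) 1 1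
    · simp only [h, if_false]
      have h1 := (MD.inv κ _ (hdeg _ _) (hdiag i)).mul
        (MD.entry κ _ (hdeg (Sum.inl i) (Sum.inl j)))
      rw [add_zero, zero_add] at h1
      exact h1.neg
  have hinv : ∀ i j, ∀ k ∈ range q, MD (k + 1) k (fun x => (M x ^ k) i j * b x j) := by
    intro i j k _
    have h1 := (pow_mem_MD M hMD k i j).mul (MD.inv κ _ (hdeg _ _) (hdiag j))
    rw [add_zero] at h1
    exact h1
  have hZD : ∀ i j, MD q (q + 1) (fun x => Z x i j) := by
    intro i j
    have h1 : ∀ x, Z x i j = dv κ x (A (Sum.inr i) (Sum.inr j)) -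
        ∑ l, ∑ l', ∑ k ∈ range q, dv κ x (A (Sum.inr i) (Sum.inl l')) *
          ((M x ^ k) l' l * b x l) * dv κ x (A (Sum.inl l) (Sum.inr j)) := by
      intro x
      simp only [hZ, Matrix.sub_apply, Matrix.mul_apply, Matrix.toBlocks₂₂, Matrix.toBlocks₂₁,
        Matrix.toBlocks₁₂, Matrix.of_apply, Matrix.map_apply, hYe, Finset.sum_mul, Finset.mul_sum]
    simp only [h1]
    refine MD.sub ((MD.entry κ _ (hdeg _ _)).mono (Nat.zero_le _) (by omega)) ?_
    refine MD.sum _ _ fun l _ => MD.sum _ _ fun l' _ => MD.sum _ _ fun k hk => ?_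
    have h2 := ((MD.entry κ _ (hdeg (Sum.inr i) (Sum.inl l'))).mul (hinv l' l k hk)).mul
      (MD.entry κ _ (hdeg (Sum.inl l) (Sum.inr j)))
    have hk' := Finset.mem_range.1 hk
    exact h2.mono (by omega) (by omega)
  refine ⟨fun x => (Z x).det, MD.det Z hZD, fun x hx => ?_⟩
  set B := (A.map (dv κ x)).toBlocks₁₁ with hB
  have hBij : ∀ i j, B i j = dv κ x (A (Sum.inl i) (Sum.inl j)) := fun i j => rfl
  have hb1 : ∀ i, B i i * b x i = 1 := by
    intro i
    rw [hBij]
    exact mul_dinv _ (by rw [dv_fst]; exact hx i)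
  have hBlev : ∀ i j, i ≠ j → B i j ≠ 0 → lev i < lev j := by
    intro i j hij h0
    refine hlev i j hij fun h1 => h0 ?_
    rw [hBij, h1, map_zero]
  have hBB := inv_level lev B (b x) hb1 hBlev
  have hMx : (Matrix.of fun i j => if i = j then 0 else - (b x i * B i j)) = M x := rfl
  rw [hMx] at hBB
  have hdet : dv κ x A.det = (A.map (dv κ x)).det := by
    rw [AlgHom.map_det]
    rfl
  let _ : Invertible B := ⟨Y x, mul_eq_one_comm.1 hBB, hBB⟩
  have hinvB : ⅟B = Y x := rfl
  rw [hdet, ← Matrix.fromBlocks_toBlocks (A.map (dv κ x)), ← hB, Matrix.det_fromBlocks₁₁,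
    det_level lev B hBlev, hinvB]
  rfl

/-- The derivatives of a product of dual numbers. -/
theorem snd_prod {ι : Type*} (s : Finset ι) (z : ι → DualNumber F)
    (h : ∀ i ∈ s, (z i).fst ≠ 0) :
    (∏ i ∈ s, z i).fst = ∏ i ∈ s, (z i).fst ∧
    (∏ i ∈ s, z i).snd = (∏ i ∈ s, (z i).fst) * ∑ i ∈ s, (z i).snd * ((z i).fst)⁻¹ := by
  classical
  induction s using Finset.induction_on with
  | empty => simp
  | insert a s ha ih =>
    obtain ⟨h1, h2⟩ := ih fun i hi => h i (by simp [hi])
    have h3 := h a (by simp)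
    rw [Finset.prod_insert ha, Finset.prod_insert ha, Finset.sum_insert ha,
      TrivSqZeroExt.fst_mul, TrivSqZeroExt.snd_mul, h1, h2]
    refine ⟨rfl, ?_⟩
    simp only [smul_eq_mul, MulOpposite.smul_eq_mul_unop, MulOpposite.unop_op]
    field_simp
    ring

/-- The derivatives of the determinant. -/
theorem pderiv_det (κ : Fin m)
    (A : Matrix (Fin n ⊕ Fin c) (Fin n ⊕ Fin c) (MvPolynomial (Fin m) F)) (hA : Layered q A) :
    ∃ Ψ ∈ RR F m (c * q + 1) (c * (q + 1)),
      ∀ x, (∀ i, eval x (A (Sum.inl i) (Sum.inl i)) ≠ 0) →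
        eval x (pderiv κ A.det) = (∏ i, eval x (A (Sum.inl i) (Sum.inl i))) * Ψ x := by
  obtain ⟨S, hS, hx⟩ := schur κ A hA
  obtain ⟨hdeg, hdiag, -⟩ := hA
  have hlog : (fun x => ∑ i, eval x (pderiv κ (A (Sum.inl i) (Sum.inl i))) *
      (eval x (A (Sum.inl i) (Sum.inl i)))⁻¹) ∈ RR F m 1 0 := by
    have h1 : (fun x => ∑ i, eval x (pderiv κ (A (Sum.inl i) (Sum.inl i))) *
        (eval x (A (Sum.inl i) (Sum.inl i)))⁻¹) =
        ∑ i, (fun x => eval x (pderiv κ (A (Sum.inl i) (Sum.inl i)))) *
          fun x => (eval x (A (Sum.inl i) (Sum.inl i)))⁻¹ := by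
      funext x
      simp [Finset.sum_apply]
    rw [h1]
    refine Submodule.sum_mem _ fun i _ => ?_
    obtain ⟨l, hl, hev⟩ := exists_form _ (hdeg (Sum.inl i) (Sum.inl i)) (hdiag i)
    have h2 := RR_mul (RR_poly (δ := 0) _ (deg_pderiv κ _ (hdeg (Sum.inl i) (Sum.inl i))))
      (RR_inv (e := 0) le_rfl l hl)
    simp only [hev]
    exact h2
  refine ⟨(fun x => (S x).snd) + (fun x => ∑ i, eval x (pderiv κ (A (Sum.inl i) (Sum.inl i))) *
      (eval x (A (Sum.inl i) (Sum.inl i)))⁻¹) * fun x => (S x).fst,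
    Submodule.add_mem _ hS.2 ?_, fun x hxi => ?_⟩
  · have h2 := RR_mul hlog hS.1
    rw [zero_add, add_comm 1] at h2
    exact h2
  · have h1 := congrArg TrivSqZeroExt.snd (hx x hxi)
    obtain ⟨h2, h3⟩ := snd_prod univ (fun i => dv κ x (A (Sum.inl i) (Sum.inl i)))
      (fun i _ => by rw [dv_fst]; exact hxi i)
    rw [dv_snd, TrivSqZeroExt.snd_mul, h2, h3] at h1
    simp only [dv_fst, dv_snd, smul_eq_mul, MulOpposite.smul_eq_mul_unop, MulOpposite.unop_op]
      at h1
    rw [h1]
    simp only [Pi.add_apply, Pi.mul_apply]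
    ring

end bordered

end Pool.Agent.Lib.MP_64d474_lc.LF31
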