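import Pool.Agent.Lib.MP_64d474_lc.LF.Hit31
import Pool.Agent.Lib.MP_64d474_lc.LF.Mat31
import Pool.Agent.Lib.MP_64d474_lc.FV.Jac66
import Pool.Agent.Lib.MP_64d474_lc.FV.J95
import Pool.Agent.Lib.MP_64d474_lc.FV.K97

set_option autoImplicit false

/-!
# Bordered layered matrices of linear forms: the final theorem
-/

namespace Pool.Agent.Lib.MP_64d474_lc.LF31

open MvPolynomial Finset

universe u

variable {F : Type u} [Field F] {m : ℕ}

theorem RR_prod {δ e : ℕ} {ι : Type*} (s : Finset ι) (g : ι → (Fin m → F) → F)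
    (h : ∀ i ∈ s, g i ∈ RR F m δ e) : ∏ i ∈ s, g i ∈ RR F m (s.card * δ) (s.card * e) := by
  classical
  induction s using Finset.induction_on with
  | empty =>
    have h1 := RR_poly (F := F) (m := m) (δ := 0) (e := 0) (C 1) (by rw [totalDegree_C])
    simp only [eval_C] at h1
    rw [Finset.prod_empty, Finset.card_empty, zero_mul, zero_mul]
    exact h1
  | insert a s ha ih =>
    rw [Finset.prod_insert ha, Finset.card_insert_of_notMem ha]
    have h1 := RR_mul (h a (by simp)) (ih fun i hi => h i (by simp [hi]))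
    exact RR_mono (le_of_eq (by ring)) (le_of_eq (by ring)) h1

theorem RR_det {δ e ρ : ℕ} (G : Fin ρ → Fin ρ → (Fin m → F) → F)
    (h : ∀ i j, G i j ∈ RR F m δ e) :
    (fun x => (Matrix.of fun i j => G i j x).det) ∈ RR F m (ρ * δ) (ρ * e) := by
  have h1 : (fun x => (Matrix.of fun i j => G i j x).det) =
      ∑ σ : Equiv.Perm (Fin ρ), ((Equiv.Perm.sign σ : ℤ) : F) • ∏ i, G (σ i) i := by
    funext x
    simp [Matrix.det_apply', Finset.sum_apply, Finset.prod_apply]
  rw [h1]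
  refine Submodule.sum_mem _ fun σ _ => Submodule.smul_mem _ _ ?_
  have h2 := RR_prod (univ : Finset (Fin ρ)) (fun i => G (σ i) i) fun i _ => h _ _
  rwa [Finset.card_univ, Fintype.card_fin] at h2

/-- the number of seeds -/
def ls (c q r : ℕ) : ℕ := r * (c * (q + 1)) + 1 + r * (c * q + 1)

/-- The minors of the Jacobian matrix are hit. -/
theorem hit_minor [CharZero F] {c q r ρ : ℕ} (hρ : ρ ≤ r) (n : Fin ρ → ℕ)
    (A : ∀ j, Matrix (Fin (n j) ⊕ Fin c) (Fin (n j) ⊕ Fin c) (MvPolynomial (Fin m) F))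
    (hA : ∀ j, Layered q (A j)) (κ : Fin ρ → Fin m)
    (h0 : Matrix.det (Matrix.of fun j a => pderiv (κ a) (A j).det) ≠ 0) :
    S3.gen F m (ls c q r) (Matrix.det (Matrix.of fun j a => pderiv (κ a) (A j).det)) ≠ 0 := by
  classical
  set J := Matrix.det (Matrix.of fun j a => pderiv (κ a) (A j).det) with hJ
  have hΨ : ∀ j a, ∃ Ψ ∈ RR F m (c * q + 1) (c * (q + 1)),
      ∀ x, (∀ i, eval x (A j (Sum.inl i) (Sum.inl i)) ≠ 0) →
        eval x (pderiv (κ a) (A j).det) = (∏ i, eval x (A j (Sum.inl i) (Sum.inl i))) * Ψ x :=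
    fun j a => pderiv_det (κ a) (A j) (hA j)
  choose Ψ hΨ1 hΨ2 using hΨ
  set R : (Fin m → F) → F := fun x => (Matrix.of fun j a => Ψ j a x).det with hR
  have hRR : R ∈ RR F m (r * (c * q + 1)) (r * (c * (q + 1)) + 1) :=
    RR_mono (Nat.mul_le_mul_right _ hρ) ((Nat.mul_le_mul_right _ hρ).trans (Nat.le_succ _))
      (RR_det Ψ hΨ1)
  have hJR : ∀ x, (∀ j i, eval x (A j (Sum.inl i) (Sum.inl i)) ≠ 0) →
      eval x J = (∏ j, ∏ i, eval x (A j (Sum.inl i) (Sum.inl i))) * R x := by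
    intro x hx
    have h1 : eval x J = (Matrix.of fun j a => (∏ i, eval x (A j (Sum.inl i) (Sum.inl i))) *
        (Matrix.of fun j a => Ψ j a x) j a).det := by
      rw [hJ, RingHom.map_det]
      congr 1
      ext j a
      exact hΨ2 j a x (hx j)
    rw [h1, Matrix.det_mul_column]
  have hform : ∀ s : (j : Fin ρ) × Fin (n j), ∃ l : F × (Fin m → F), l ≠ 0 ∧
      ∀ x, eval x (A s.1 (Sum.inl s.2) (Sum.inl s.2)) = ev l x :=
    fun s => exists_form _ ((hA s.1).1 _ _) ((hA s.1).2.1 s.2)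
  choose l hl0 hlev using hform
  set L : List (F × (Fin m → F)) := (univ : Finset ((j : Fin ρ) × Fin (n j))).toList.map l with hL
  have hL0 : ∀ l' ∈ L, l' ≠ 0 := by
    intro l' hl'
    obtain ⟨s, _, rfl⟩ := List.mem_map.1 hl'
    exact hl0 s
  have hLx : ∀ x, (∀ l' ∈ L, ev l' x ≠ 0) →
      ∀ j i, eval x (A j (Sum.inl i) (Sum.inl i)) ≠ 0 := by
    intro x hx j i
    rw [hlev ⟨j, i⟩]
    exact hx _ (List.mem_map.2 ⟨⟨j, i⟩, by simp, rfl⟩)
  have hNz : Nz R := by
    intro L' hL'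
    have h1 : J * ((L ++ L').map pol).prod ≠ 0 := by
      refine mul_ne_zero h0 ?_
      rw [Ne, List.prod_eq_zero_iff, List.mem_map]
      rintro ⟨l', hl', h2⟩
      refine pol_ne_zero ?_ h2
      rcases List.mem_append.1 hl' with h3 | h3
      · exact hL0 l' h3
      · exact hL' l' h3
    obtain ⟨x, hx⟩ : ∃ x, eval x (J * ((L ++ L').map pol).prod) ≠ 0 := by
      by_contra hno
      exact h1 (MvPolynomial.funext fun x => by
        rw [map_zero]; by_contra hx; exact hno ⟨x, hx⟩)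
    rw [map_mul] at hx
    have h2 : ∀ l' ∈ L ++ L', ev l' x ≠ 0 := by
      intro l' hl' h3
      apply right_ne_zero_of_mul hx
      rw [map_list_prod, List.prod_eq_zero_iff, List.map_map, List.mem_map]
      exact ⟨l', hl', by rw [Function.comp_apply, eval_pol, h3]⟩
    refine ⟨x, fun l' hl' => h2 l' (List.mem_append_right _ hl'), fun h3 => ?_⟩
    apply left_ne_zero_of_mul hx
    rw [hJR x (hLx x fun l' hl' => h2 l' (List.mem_append_left _ hl')), h3, mul_zero]
  obtain ⟨x, ⟨y, z, hyz⟩, hxL, hxR⟩ := hit (Nat.le_add_left 1 (r * (c * (q + 1)))) _ R hRR hNz L hL0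
  intro hz
  have h4 : eval x J ≠ 0 := by
    rw [hJR x (hLx x hxL)]
    refine mul_ne_zero ?_ hxR
    rw [Finset.prod_ne_zero_iff]
    intro j _
    rw [Finset.prod_ne_zero_iff]
    intro i _
    exact hLx x hxL j i
  apply h4
  have h5 := S3.eval_gen (s := ls c q r) J (Sum.elim y z)
  rw [hz, map_zero] at h5
  rw [← hyz]
  exact h5.symm

/-- Any polynomial in determinants of bordered layered matrices of linear forms. -/
theorem lf_gen [CharZero F] {c q r p : ℕ} (n : Fin p → ℕ)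
    (A : ∀ a, Matrix (Fin (n a) ⊕ Fin c) (Fin (n a) ⊕ Fin c) (MvPolynomial (Fin m) F))
    (hA : ∀ a, Layered q (A a))
    (hr : ∀ s : Finset (Fin p), AlgebraicIndependent F (fun a : s => (A a).det) → s.card ≤ r)
    (h : MvPolynomial (Fin m) F)
    (hh : h ∈ Algebra.adjoin F (Set.range fun a => (A a).det))
    (hgen : S3.gen F m (ls c q r + r) h = 0) : h = 0 :=
  FV.jacHit FV.J95.stJ95 FV.rowK97 (fun a => (A a).det) hr
    (fun _ e κ hρ h0 => hit_minor hρ (fun j => n (e j)) (fun j => A (e j)) (fun j => hA (e j)) κ h0)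
    h hh hgen

/-- The final theorem: `r (2 c q + c + 2) + 1` seeds. -/
theorem lf [CharZero F] {c q r p N : ℕ} (n : Fin p → ℕ)
    (A : ∀ a, Matrix (Fin (n a) ⊕ Fin c) (Fin (n a) ⊕ Fin c) (MvPolynomial (Fin m) F))
    (hA : ∀ a, Layered q (A a))
    (hr : ∀ s : Finset (Fin p), AlgebraicIndependent F (fun a : s => (A a).det) → s.card ≤ r)
    (h : MvPolynomial (Fin m) F)
    (hh : h ∈ Algebra.adjoin F (Set.range fun a => (A a).det)) (hN : h.totalDegree ≤ N)
    (h0 : h ≠ 0) :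
    ∃ x ∈ S3.grid m N (r * (2 * c * q + c + 2) + 1), eval (fun k => ((x k : ℤ) : F)) h ≠ 0 := by
  by_contra hno
  push Not at hno
  have h1 : r * (2 * c * q + c + 2) + 1 = ls c q r + r := by
    rw [ls]; ring
  rw [h1] at hno
  exact h0 (lf_gen n A hA hr h hh (S3.gen_eq_zero_of_grid h hN hno))

end Pool.Agent.Lib.MP_64d474_lc.LF31
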