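import Mathlib
import Pool.Agent.Lib.MP_64d474_lc.S3.Hit35b

set_option autoImplicit false

/-!
# Sums of fractions with linear denominators: decomposition along a line

`RR δ e` is the space of the functions `∑ a / (ℓ_1 ⋯ ℓ_δ)` with `deg a ≤ e` and `ℓ_i` nonzero
affine forms.
-/

namespace Pool.Agent.Lib.MP_64d474_lc.LF31

open MvPolynomial Finset

universe u

section defs

variable {F : Type u} [Field F] {m : ℕ}

/-- the value of an affine form -/
def ev (l : F × (Fin m → F)) (x : Fin m → F) : F := l.1 + ∑ i, l.2 i * x i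

/-- the linear part of an affine form -/
def lin (l : F × (Fin m → F)) (v : Fin m → F) : F := ∑ i, l.2 i * v i

/-- the polynomial of an affine form -/
noncomputable def pol (l : F × (Fin m → F)) : MvPolynomial (Fin m) F :=
  C l.1 + ∑ i, C (l.2 i) * X i

theorem eval_pol (l : F × (Fin m → F)) (x : Fin m → F) : eval x (pol l) = ev l x := by
  simp [pol, ev]

theorem totalDegree_pol (l : F × (Fin m → F)) : (pol l).totalDegree ≤ 1 := by
  rw [pol]
  refine (totalDegree_add _ _).trans (max_le (by rw [totalDegree_C]; exact Nat.zero_le _) ?_)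
  refine (totalDegree_finsetSum _ _).trans (Finset.sup_le fun i _ => ?_)
  refine (totalDegree_mul _ _).trans ?_
  rw [totalDegree_C, totalDegree_X]

theorem pol_ne_zero [Infinite F] {l : F × (Fin m → F)} (hl : l ≠ 0) : pol l ≠ 0 := by
  intro h0
  apply hl
  have h1 : ∀ x, ev l x = 0 := fun x => by rw [← eval_pol, h0, map_zero]
  have h2 : l.1 = 0 := by simpa [ev] using h1 0
  refine Prod.ext h2 (funext fun i => ?_)
  have h3 := h1 (Pi.single i 1)
  simpa [ev, h2, Pi.single_apply] using h3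

theorem ev_add (l : F × (Fin m → F)) (x v : Fin m → F) (t : F) :
    ev l (fun i => x i + t * v i) = ev l x + t * lin l v := by
  simp only [ev, lin, mul_add, Finset.sum_add_distrib, Finset.mul_sum, add_assoc]
  congr 2
  exact Finset.sum_congr rfl fun i _ => by ring

theorem ev_smul (c : F) (l : F × (Fin m → F)) (x : Fin m → F) : ev (c • l) x = c * ev l x := by
  simp only [ev, Prod.smul_fst, Prod.smul_snd, Pi.smul_apply, smul_eq_mul, mul_add, Finset.mul_sum,
    mul_assoc]

theorem ev_sub (l l' : F × (Fin m → F)) (x : Fin m → F) : ev (l - l') x = ev l x - ev l' x := by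
  simp only [ev, Prod.fst_sub, Prod.snd_sub, Pi.sub_apply, sub_mul, Finset.sum_sub_distrib]
  ring

/-- the space of sums of fractions -/
def RR (F : Type u) [Field F] (m δ e : ℕ) : Submodule F ((Fin m → F) → F) :=
  Submodule.span F {g | ∃ (a : MvPolynomial (Fin m) F) (L : List (F × (Fin m → F))),
    a.totalDegree ≤ e ∧ L.length ≤ δ ∧ (∀ l ∈ L, l ≠ 0) ∧
      g = fun x => eval x a * ((L.map fun l => ev l x).prod)⁻¹}

theorem RR_mono {δ δ' e e' : ℕ} (h : δ ≤ δ') (h' : e ≤ e') : RR F m δ e ≤ RR F m δ' e' := by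
  refine Submodule.span_mono ?_
  rintro g ⟨a, L, h1, h2, h3, h4⟩
  exact ⟨a, L, h1.trans h', h2.trans h, h3, h4⟩

theorem RR_poly {δ e : ℕ} (a : MvPolynomial (Fin m) F) (ha : a.totalDegree ≤ e) :
    (fun x => eval x a) ∈ RR F m δ e :=
  Submodule.subset_span ⟨a, [], ha, Nat.zero_le _, by simp, by simp⟩

theorem RR_inv {δ e : ℕ} (hδ : 1 ≤ δ) (l : F × (Fin m → F)) (hl : l ≠ 0) :
    (fun x => (ev l x)⁻¹) ∈ RR F m δ e :=
  Submodule.subset_span ⟨1, [l], by simp, by simpa using hδ, by simpa using hl, by simp⟩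

theorem RR_mul {δ δ' e e' : ℕ} {g g' : (Fin m → F) → F} (hg : g ∈ RR F m δ e)
    (hg' : g' ∈ RR F m δ' e') : g * g' ∈ RR F m (δ + δ') (e + e') := by
  have h : RR F m δ e * RR F m δ' e' ≤ RR F m (δ + δ') (e + e') := by
    rw [RR, RR, Submodule.span_mul_span]
    refine Submodule.span_mono ?_
    rintro _ ⟨_, ⟨a, L, h1, h2, h3, rfl⟩, _, ⟨a', L', h1', h2', h3', rfl⟩, rfl⟩
    refine ⟨a * a', L ++ L', (totalDegree_mul _ _).trans (add_le_add h1 h1'), ?_, ?_, ?_⟩
    · rw [List.length_append]; exact add_le_add h2 h2'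
    · intro l hl
      rcases List.mem_append.1 hl with hl | hl
      · exact h3 l hl
      · exact h3' l hl
    · funext x
      simp only [Pi.mul_apply, map_mul, List.map_append, List.prod_append, mul_inv]
      ring
  exact h (Submodule.mul_mem_mul hg hg')

/-- `g` is not zero on any complement of finitely many hyperplanes -/
def Nz (g : (Fin m → F) → F) : Prop :=
  ∀ L : List (F × (Fin m → F)), (∀ l ∈ L, l ≠ 0) → ∃ x, (∀ l ∈ L, ev l x ≠ 0) ∧ g x ≠ 0

/-- the polynomials in `(x, t)` of degree at most `e`, as functions -/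
def PP (F : Type u) [Field F] (m e : ℕ) : Submodule F ((Fin m → F) → F → F) :=
  Submodule.span F {G | ∃ (a : MvPolynomial (Fin m) F) (j : ℕ), a.totalDegree + j ≤ e ∧
    G = fun x t => eval x a * t ^ j}

theorem PP_mono {e e' : ℕ} (h : e ≤ e') : PP F m e ≤ PP F m e' := by
  refine Submodule.span_mono ?_
  rintro g ⟨a, j, h1, h2⟩
  exact ⟨a, j, h1.trans h, h2⟩

theorem PP_mul {e e' : ℕ} {g g' : (Fin m → F) → F → F} (hg : g ∈ PP F m e)
    (hg' : g' ∈ PP F m e') : g * g' ∈ PP F m (e + e') := by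
  have h : PP F m e * PP F m e' ≤ PP F m (e + e') := by
    rw [PP, PP, Submodule.span_mul_span]
    refine Submodule.span_mono ?_
    rintro _ ⟨_, ⟨a, j, h1, rfl⟩, _, ⟨a', j', h1', rfl⟩, rfl⟩
    refine ⟨a * a', j + j', ?_, ?_⟩
    · have := totalDegree_mul a a'
      omega
    · funext x t
      simp only [Pi.mul_apply, map_mul, pow_add]
      ring
  exact h (Submodule.mul_mem_mul hg hg')

theorem PP_one : (1 : (Fin m → F) → F → F) ∈ PP F m 0 :=
  Submodule.subset_span ⟨1, 0, by simp, by funext x t; simp⟩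

theorem PP_pow {e : ℕ} {g : (Fin m → F) → F → F} (hg : g ∈ PP F m e) (k : ℕ) :
    g ^ k ∈ PP F m (k * e) := by
  induction k with
  | zero => simpa using PP_one
  | succ k ih =>
    rw [pow_succ, Nat.succ_mul]
    exact PP_mul ih hg

theorem PP_prod {ι : Type*} (s : Finset ι) (g : ι → (Fin m → F) → F → F) (d : ι → ℕ)
    (h : ∀ i ∈ s, g i ∈ PP F m (d i)) : ∏ i ∈ s, g i ∈ PP F m (∑ i ∈ s, d i) := by
  classical
  induction s using Finset.induction_on with
  | empty => simpa using PP_one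
  | insert a s ha ih =>
    rw [Finset.prod_insert ha, Finset.sum_insert ha]
    exact PP_mul (h a (by simp)) (ih fun i hi => h i (by simp [hi]))

theorem PP_var (v : Fin m → F) (i : Fin m) :
    (fun (x : Fin m → F) (t : F) => x i + t * v i) ∈ PP F m 1 := by
  have h1 : (fun (x : Fin m → F) (t : F) => x i + t * v i) =
      (fun x t => eval x (X i : MvPolynomial (Fin m) F) * t ^ 0) +
        fun x t => eval x (C (v i) : MvPolynomial (Fin m) F) * t ^ 1 := by
    funext x t
    simp only [Pi.add_apply, eval_X, eval_C, pow_zero, pow_one, mul_one]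
    ring
  rw [h1]
  refine Submodule.add_mem _ (Submodule.subset_span ⟨X i, 0, ?_, rfl⟩)
    (Submodule.subset_span ⟨C (v i), 1, ?_, rfl⟩)
  · rw [totalDegree_X]
  · rw [totalDegree_C]

theorem PP_line (v : Fin m → F) {e : ℕ} (a : MvPolynomial (Fin m) F) (ha : a.totalDegree ≤ e) :
    (fun (x : Fin m → F) (t : F) => eval (fun i => x i + t * v i) a) ∈ PP F m e := by
  classical
  have h1 : (fun (x : Fin m → F) (t : F) => eval (fun i => x i + t * v i) a) =
      ∑ d ∈ a.support, coeff d a • ∏ i ∈ d.support,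
        (fun (x : Fin m → F) (t : F) => x i + t * v i) ^ d i := by
    funext x t
    rw [eval_eq]
    simp [Finset.sum_apply, Finset.prod_apply]
  rw [h1]
  refine Submodule.sum_mem _ fun d hd => Submodule.smul_mem _ _ ?_
  have h2 := PP_prod d.support (fun i => (fun (x : Fin m → F) (t : F) => x i + t * v i) ^ d i)
    (fun i => d i * 1) (fun i _ => PP_pow (PP_var v i) (d i))
  refine PP_mono ?_ h2
  refine le_trans ?_ ((le_totalDegree hd).trans ha)
  simp [Finsupp.sum]

/-- polynomials and fractions in `t` -/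
def PF (F : Type u) [Field F] (m δ e : ℕ) : Submodule F ((Fin m → F) → F → F) :=
  PP F m e ⊔ Submodule.span F {G | ∃ (c : (Fin m → F) → F) (q : ℕ) (θ : F × (Fin m → F)),
    q + 1 ≤ δ ∧ c ∈ RR F m (δ - (q + 1)) e ∧ θ ≠ 0 ∧
      G = fun x t => c x * ((t + ev θ x) ^ (q + 1))⁻¹}

theorem PF_mono {δ δ' e : ℕ} (h : δ ≤ δ') : PF F m δ e ≤ PF F m δ' e := by
  refine sup_le_sup le_rfl (Submodule.span_mono ?_)
  rintro g ⟨c, q, θ, h1, h2, h3, h4⟩
  exact ⟨c, q, θ, h1.trans h, RR_mono (by omega) le_rfl h2, h3, h4⟩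

/-- equal to a member of `PF` outside finitely many hyperplanes -/
def PFp (δ e : ℕ) (G : (Fin m → F) → F → F) : Prop :=
  ∃ G' ∈ PF F m δ e, ∃ L Θ : List (F × (Fin m → F)), (∀ l ∈ L, l ≠ 0) ∧ (∀ θ ∈ Θ, θ ≠ 0) ∧
    ∀ x t, (∀ l ∈ L, ev l x ≠ 0) → (∀ θ ∈ Θ, t + ev θ x ≠ 0) → G x t = G' x t

theorem PFp.of_mem {δ e : ℕ} {G : (Fin m → F) → F → F} (h : G ∈ PF F m δ e) : PFp δ e G :=
  ⟨G, h, [], [], by simp, by simp, fun _ _ _ _ => rfl⟩

theorem PFp.mono {δ δ' e : ℕ} (h : δ ≤ δ') {G : (Fin m → F) → F → F} (hG : PFp δ e G) :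
    PFp δ' e G := by
  obtain ⟨G', h1, L, Θ, h2, h3, h4⟩ := hG
  exact ⟨G', PF_mono h h1, L, Θ, h2, h3, h4⟩

theorem PFp.congr {δ e : ℕ} {G H : (Fin m → F) → F → F} (hG : PFp δ e G)
    (L Θ : List (F × (Fin m → F))) (hL : ∀ l ∈ L, l ≠ 0) (hΘ : ∀ θ ∈ Θ, θ ≠ 0)
    (h : ∀ x t, (∀ l ∈ L, ev l x ≠ 0) → (∀ θ ∈ Θ, t + ev θ x ≠ 0) → H x t = G x t) :
    PFp δ e H := by
  obtain ⟨G', h1, L', Θ', h2, h3, h4⟩ := hG
  refine ⟨G', h1, L ++ L', Θ ++ Θ', ?_, ?_, ?_⟩
  · intro l hl
    rcases List.mem_append.1 hl with hl | hl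
    · exact hL l hl
    · exact h2 l hl
  · intro l hl
    rcases List.mem_append.1 hl with hl | hl
    · exact hΘ l hl
    · exact h3 l hl
  · intro x t hx ht
    rw [h x t (fun l hl => hx l (List.mem_append_left _ hl))
      (fun l hl => ht l (List.mem_append_left _ hl)),
      h4 x t (fun l hl => hx l (List.mem_append_right _ hl))
      (fun l hl => ht l (List.mem_append_right _ hl))]

theorem PFp.add {δ e : ℕ} {G H : (Fin m → F) → F → F} (hG : PFp δ e G) (hH : PFp δ e H) :
    PFp δ e (G + H) := by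
  obtain ⟨G', h1, L, Θ, h2, h3, h4⟩ := hG
  obtain ⟨H', k1, L', Θ', k2, k3, k4⟩ := hH
  refine ⟨G' + H', Submodule.add_mem _ h1 k1, L ++ L', Θ ++ Θ', ?_, ?_, ?_⟩
  · intro l hl
    rcases List.mem_append.1 hl with hl | hl
    · exact h2 l hl
    · exact k2 l hl
  · intro l hl
    rcases List.mem_append.1 hl with hl | hl
    · exact h3 l hl
    · exact k3 l hl
  · intro x t hx ht
    simp only [Pi.add_apply]
    rw [h4 x t (fun l hl => hx l (List.mem_append_left _ hl))
      (fun l hl => ht l (List.mem_append_left _ hl)),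
      k4 x t (fun l hl => hx l (List.mem_append_right _ hl))
      (fun l hl => ht l (List.mem_append_right _ hl))]

theorem PFp.smul {δ e : ℕ} {G : (Fin m → F) → F → F} (c : F) (hG : PFp δ e G) :
    PFp δ e (c • G) := by
  obtain ⟨G', h1, L, Θ, h2, h3, h4⟩ := hG
  refine ⟨c • G', Submodule.smul_mem _ _ h1, L, Θ, h2, h3, fun x t hx ht => ?_⟩
  simp only [Pi.smul_apply]
  rw [h4 x t hx ht]

theorem PF_frac {δ e q δ' : ℕ} {c : (Fin m → F) → F} (hc : c ∈ RR F m δ' e)
    (h : δ' + (q + 1) ≤ δ) (θ : F × (Fin m → F)) (hθ : θ ≠ 0) :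
    (fun x t => c x * ((t + ev θ x) ^ (q + 1))⁻¹) ∈ PF F m δ e :=
  Submodule.mem_sup_right (Submodule.subset_span ⟨c, q, θ, by omega,
    RR_mono (by omega) le_rfl hc, hθ, rfl⟩)

/-- Division of a fraction. -/
theorem div_frac {e : ℕ} (θ α : F × (Fin m → F)) (hθ : θ ≠ 0) (hα : α ≠ 0) :
    ∀ (q δ δ' : ℕ) (c : (Fin m → F) → F), c ∈ RR F m δ' e → δ' + q + 1 ≤ δ →
      PFp δ e (fun x t => c x * ((t + ev θ x) ^ q)⁻¹ * (t + ev α x)⁻¹) := by
  by_cases hθα : θ = α
  · subst hθα
    intro q δ δ' c hc h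
    have h1 := PF_frac hc (q := q) (δ := δ) (by omega) θ hθ
    refine (PFp.of_mem h1).congr [] [] (by simp) (by simp) fun x t _ _ => ?_
    rw [pow_succ, mul_inv, mul_assoc]
  · intro q
    induction q with
    | zero =>
      intro δ δ' c hc h
      have h1 := PF_frac hc (q := 0) (δ := δ) (by omega) α hα
      refine (PFp.of_mem h1).congr [] [] (by simp) (by simp) fun x t _ _ => ?_
      simp
    | succ q ih =>
      intro δ δ' c hc h
      have hβ : α - θ ≠ 0 := fun h0 => hθα (sub_eq_zero.1 h0).symm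
      have hc' : (c * fun x => (ev (α - θ) x)⁻¹) ∈ RR F m (δ' + 1) (e + 0) :=
        RR_mul hc (RR_inv le_rfl _ hβ)
      rw [add_zero] at hc'
      have h1 := PF_frac hc' (q := q) (δ := δ) (by omega) θ hθ
      have h2 := ih δ (δ' + 1) _ hc' (by omega)
      refine ((PFp.of_mem h1).add (h2.smul (-1))).congr [α - θ] [θ, α] (by simpa using hβ)
        (by simp [hθ, hα]) fun x t hx ht => ?_
      have e1 : ev (α - θ) x ≠ 0 := hx _ (by simp)
      have e2 : t + ev θ x ≠ 0 := ht _ (by simp)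
      have e3 : t + ev α x ≠ 0 := ht _ (by simp)
      simp only [Pi.add_apply, Pi.smul_apply, Pi.mul_apply, smul_eq_mul]
      have e4 : t + ev α x = (t + ev θ x) + ev (α - θ) x := by rw [ev_sub]; ring
      rw [e4] at e3 ⊢
      generalize ev (α - θ) x = β at *
      generalize t + ev θ x = w at *
      field_simp
      ring

/-- Division of a polynomial. -/
theorem div_poly {e δ : ℕ} (α : F × (Fin m → F)) (hα : α ≠ 0) :
    ∀ (j : ℕ) (a : MvPolynomial (Fin m) F), a.totalDegree + j ≤ e →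
      PFp (δ + 1) e (fun x t => eval x a * t ^ j * (t + ev α x)⁻¹) := by
  intro j
  induction j with
  | zero =>
    intro a ha
    have h1 := PF_frac (RR_poly (δ := 0) a (by omega : a.totalDegree ≤ e)) (q := 0) (δ := δ + 1)
      (by omega) α hα
    refine (PFp.of_mem h1).congr [] [] (by simp) (by simp) fun x t _ _ => ?_
    simp
  | succ j ih =>
    intro a ha
    have h1 : (fun (x : Fin m → F) (t : F) => eval x a * t ^ j) ∈ PF F m (δ + 1) e :=
      Submodule.mem_sup_left (Submodule.subset_span ⟨a, j, by omega, rfl⟩)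
    have h2 := ih (a * pol α) (by
      have := totalDegree_mul a (pol α)
      have := totalDegree_pol α
      omega)
    refine ((PFp.of_mem h1).add (h2.smul (-1))).congr [] [α] (by simp) (by simp [hα])
      fun x t _ ht => ?_
    have e3 : t + ev α x ≠ 0 := ht _ (by simp)
    simp only [Pi.add_apply, Pi.smul_apply, smul_eq_mul, map_mul, eval_pol]
    field_simp
    ring

/-- Division of a member of `PF`. -/
theorem div_mem {e δ : ℕ} (α : F × (Fin m → F)) (hα : α ≠ 0) {G : (Fin m → F) → F → F}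
    (hG : G ∈ PF F m δ e) : PFp (δ + 1) e (fun x t => G x t * (t + ev α x)⁻¹) := by
  obtain ⟨G₁, h1, G₂, h2, rfl⟩ := Submodule.mem_sup.1 hG
  have key1 : PFp (δ + 1) e (fun x t => G₁ x t * (t + ev α x)⁻¹) := by
    refine Submodule.span_induction (p := fun G _ => PFp (δ + 1) e
      (fun x t => G x t * (t + ev α x)⁻¹)) ?_ ?_ ?_ ?_ h1
    · rintro _ ⟨a, j, ha, rfl⟩
      exact div_poly α hα j a ha
    · refine (PFp.of_mem (Submodule.zero_mem _)).congr [] [] (by simp) (by simp) fun x t _ _ => ?_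
      simp
    · intro G H _ _ hG hH
      refine (hG.add hH).congr [] [] (by simp) (by simp) fun x t _ _ => ?_
      simp only [Pi.add_apply, add_mul]
    · intro c G _ hG
      refine (hG.smul c).congr [] [] (by simp) (by simp) fun x t _ _ => ?_
      simp only [Pi.smul_apply, smul_eq_mul, mul_assoc]
  have key2 : PFp (δ + 1) e (fun x t => G₂ x t * (t + ev α x)⁻¹) := by
    refine Submodule.span_induction (p := fun G _ => PFp (δ + 1) e
      (fun x t => G x t * (t + ev α x)⁻¹)) ?_ ?_ ?_ ?_ h2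
    · rintro _ ⟨c, q, θ, hq, hc, hθ, rfl⟩
      exact div_frac θ α hθ hα (q + 1) (δ + 1) (δ - (q + 1)) c hc (by omega)
    · refine (PFp.of_mem (Submodule.zero_mem _)).congr [] [] (by simp) (by simp) fun x t _ _ => ?_
      simp
    · intro G H _ _ hG hH
      refine (hG.add hH).congr [] [] (by simp) (by simp) fun x t _ _ => ?_
      simp only [Pi.add_apply, add_mul]
    · intro c G _ hG
      refine (hG.smul c).congr [] [] (by simp) (by simp) fun x t _ _ => ?_
      simp only [Pi.smul_apply, smul_eq_mul, mul_assoc]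
  refine (key1.add key2).congr [] [] (by simp) (by simp) fun x t _ _ => ?_
  simp only [Pi.add_apply, add_mul]

theorem PFp.div {e δ : ℕ} (α : F × (Fin m → F)) (hα : α ≠ 0) {G : (Fin m → F) → F → F}
    (hG : PFp δ e G) : PFp (δ + 1) e (fun x t => G x t * (t + ev α x)⁻¹) := by
  obtain ⟨G', h1, L, Θ, h2, h3, h4⟩ := hG
  refine (div_mem α hα h1).congr L Θ h2 h3 fun x t hx ht => ?_
  rw [h4 x t hx ht]

/-- A fraction along a line. -/
theorem line_frac {e : ℕ} (v : Fin m → F) (a : MvPolynomial (Fin m) F) (ha : a.totalDegree ≤ e) :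
    ∀ L : List (F × (Fin m → F)), (∀ l ∈ L, l ≠ 0) → (∀ l ∈ L, l.2 = 0 ∨ lin l v ≠ 0) →
      PFp L.length e (fun x t => eval (fun i => x i + t * v i) a *
        ((L.map fun l => ev l (fun i => x i + t * v i)).prod)⁻¹) := by
  intro L
  induction L with
  | nil =>
    intro _ _
    refine (PFp.of_mem (Submodule.mem_sup_left (PP_line v a ha))).congr [] [] (by simp) (by simp)
      fun x t _ _ => ?_
    simp
  | cons l L ih =>
    intro h0 hv
    have ih' := ih (fun l hl => h0 l (List.mem_cons_of_mem _ hl))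
      (fun l hl => hv l (List.mem_cons_of_mem _ hl))
    rw [List.length_cons]
    have hl0 : l ≠ 0 := h0 l (by simp)
    by_cases hlin : lin l v = 0
    · have hl2 : l.2 = 0 := (hv l (by simp)).resolve_right (not_not.2 hlin)
      refine ((ih'.mono (Nat.le_succ _)).smul (l.1)⁻¹).congr [] [] (by simp) (by simp)
        fun x t _ _ => ?_
      have h5 : ∀ y, ev l y = l.1 := fun y => by simp [ev, hl2]
      simp only [Pi.smul_apply, smul_eq_mul, List.map_cons, List.prod_cons, h5, mul_inv]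
      ring
    · have hα : (lin l v)⁻¹ • l ≠ 0 := smul_ne_zero (inv_ne_zero hlin) hl0
      refine ((ih'.div _ hα).smul (lin l v)⁻¹).congr [] [] (by simp) (by simp)
        fun x t _ _ => ?_
      simp only [Pi.smul_apply, smul_eq_mul, List.map_cons, List.prod_cons, mul_inv]
      have h5 : ev l (fun i => x i + t * v i) = lin l v * (t + ev ((lin l v)⁻¹ • l) x) := by
        rw [ev_add, ev_smul]
        field_simp
        ring
      rw [h5, mul_inv]
      ring

/-- A member of `RR` along a line. -/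
theorem line_RR {δ e : ℕ} {R : (Fin m → F) → F} (hR : R ∈ RR F m δ e) :
    ∃ L₀ : List (F × (Fin m → F)), ∀ v : Fin m → F, (∀ l ∈ L₀, l.2 = 0 ∨ lin l v ≠ 0) →
      PFp δ e (fun x t => R (fun i => x i + t * v i)) := by
  refine Submodule.span_induction (p := fun R _ => ∃ L₀ : List (F × (Fin m → F)),
    ∀ v : Fin m → F, (∀ l ∈ L₀, l.2 = 0 ∨ lin l v ≠ 0) →
      PFp δ e (fun x t => R (fun i => x i + t * v i))) ?_ ?_ ?_ ?_ hR
  · rintro _ ⟨a, L, ha, hL, h0, rfl⟩
    exact ⟨L, fun v hv => (line_frac v a ha L h0 hv).mono hL⟩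
  · refine ⟨[], fun v _ => ?_⟩
    exact PFp.of_mem (Submodule.zero_mem _)
  · rintro G H _ _ ⟨L, hG⟩ ⟨L', hH⟩
    refine ⟨L ++ L', fun v hv => ?_⟩
    exact (hG v fun l hl => hv l (List.mem_append_left _ hl)).add
      (hH v fun l hl => hv l (List.mem_append_right _ hl))
  · rintro c G _ ⟨L, hG⟩
    exact ⟨L, fun v hv => (hG v hv).smul c⟩

/-- the fraction part of the normal form -/
def NF (δ e : ℕ) (G : (Fin m → F) → F → F) : Prop :=
  ∃ c : ((F × (Fin m → F)) × ℕ) →₀ ((Fin m → F) → F),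
    (∀ s ∈ c.support, s.1 ≠ 0 ∧ s.2 + 1 ≤ δ) ∧ (∀ s, c s ∈ RR F m (δ - (s.2 + 1)) e) ∧
      ∀ x t, G x t = c.sum fun s g => g x * ((t + ev s.1 x) ^ (s.2 + 1))⁻¹

theorem NF.single {δ e : ℕ} {c : (Fin m → F) → F} {q : ℕ} {θ : F × (Fin m → F)}
    (hq : q + 1 ≤ δ) (hc : c ∈ RR F m (δ - (q + 1)) e) (hθ : θ ≠ 0) :
    NF δ e (fun x t => c x * ((t + ev θ x) ^ (q + 1))⁻¹) := by
  classical
  refine ⟨Finsupp.single (θ, q) c, fun s hs => ?_, fun s => ?_, fun x t => ?_⟩
  · have h3 := Finsupp.support_single_subset hs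
    rw [Finset.mem_singleton] at h3
    subst h3
    exact ⟨hθ, hq⟩
  · rw [Finsupp.single_apply]
    split_ifs with h3
    · subst h3
      exact hc
    · exact Submodule.zero_mem _
  · rw [Finsupp.sum_single_index]
    simp

theorem NF.zero {δ e : ℕ} : NF δ e (0 : (Fin m → F) → F → F) :=
  ⟨0, by simp, fun s => Submodule.zero_mem _, fun x t => by simp⟩

theorem NF.add {δ e : ℕ} {G H : (Fin m → F) → F → F} (hG : NF δ e G) (hH : NF δ e H) :
    NF δ e (G + H) := by
  classical
  obtain ⟨c, hc1, hc2, hc3⟩ := hG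
  obtain ⟨d, hd1, hd2, hd3⟩ := hH
  refine ⟨c + d, fun s hs => ?_, fun s => ?_, fun x t => ?_⟩
  · rcases Finset.mem_union.1 (Finsupp.support_add hs) with h | h
    · exact hc1 s h
    · exact hd1 s h
  · rw [Finsupp.add_apply]
    exact Submodule.add_mem _ (hc2 s) (hd2 s)
  · rw [Finsupp.sum_add_index']
    · rw [Pi.add_apply, Pi.add_apply, hc3, hd3]
    · intro s; simp
    · intro s g h; simp [add_mul]

theorem NF.smul {δ e : ℕ} (a : F) {G : (Fin m → F) → F → F} (hG : NF δ e G) :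
    NF δ e (a • G) := by
  classical
  obtain ⟨c, hc1, hc2, hc3⟩ := hG
  refine ⟨a • c, fun s hs => hc1 s (Finsupp.support_smul hs), fun s => ?_, fun x t => ?_⟩
  · rw [Finsupp.smul_apply]
    exact Submodule.smul_mem _ _ (hc2 s)
  · rw [Finsupp.sum_smul_index']
    · rw [Pi.smul_apply, Pi.smul_apply, hc3, Finsupp.sum, Finsupp.sum, Finset.smul_sum]
      exact Finset.sum_congr rfl fun s _ => by simp [smul_eq_mul, mul_assoc]
    · intro s; simp

/-- the polynomial part of the normal form -/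
def NP (e : ℕ) (G : (Fin m → F) → F → F) : Prop :=
  ∃ P : Polynomial (MvPolynomial (Fin m) F), (∀ j, (P.coeff j).totalDegree ≤ e) ∧
      ∀ x t, G x t = (P.map (eval x)).eval t

theorem NP.of_mem {e : ℕ} {G : (Fin m → F) → F → F} (hG : G ∈ PP F m e) : NP e G := by
  refine Submodule.span_induction (p := fun G _ => NP e G) ?_ ?_ ?_ ?_ hG
  · rintro _ ⟨a, j, ha, rfl⟩
    refine ⟨Polynomial.monomial j a, fun i => ?_, fun x t => ?_⟩
    · rw [Polynomial.coeff_monomial]
      split_ifs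
      · omega
      · simp
    · simp
  · exact ⟨0, by simp, by simp⟩
  · rintro G H _ _ ⟨P, hP, hP'⟩ ⟨Q, hQ, hQ'⟩
    refine ⟨P + Q, fun j => ?_, fun x t => ?_⟩
    · rw [Polynomial.coeff_add]
      exact (totalDegree_add _ _).trans (max_le (hP j) (hQ j))
    · simp [hP', hQ']
  · rintro c G _ ⟨P, hP, hP'⟩
    refine ⟨Polynomial.C (C c) * P, fun j => ?_, fun x t => ?_⟩
    · rw [Polynomial.coeff_C_mul]
      refine (totalDegree_mul _ _).trans ?_
      rw [totalDegree_C, zero_add]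
      exact hP j
    · simp [hP']

/-- The normal form of a member of `PF`. -/
theorem normal_form {δ e : ℕ} {G : (Fin m → F) → F → F} (hG : G ∈ PF F m δ e) :
    ∃ (P : Polynomial (MvPolynomial (Fin m) F))
      (c : ((F × (Fin m → F)) × ℕ) →₀ ((Fin m → F) → F)),
      (∀ j, (P.coeff j).totalDegree ≤ e) ∧
      (∀ s ∈ c.support, s.1 ≠ 0 ∧ s.2 + 1 ≤ δ) ∧ (∀ s, c s ∈ RR F m (δ - (s.2 + 1)) e) ∧
      ∀ x t, G x t = (P.map (eval x)).eval t +
        c.sum fun s g => g x * ((t + ev s.1 x) ^ (s.2 + 1))⁻¹ := by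
  obtain ⟨G₁, h1, G₂, h2, rfl⟩ := Submodule.mem_sup.1 hG
  have key2 : NF δ e G₂ := by
    refine Submodule.span_induction (p := fun G _ => NF δ e G) ?_ NF.zero ?_ ?_ h2
    · rintro _ ⟨c, q, θ, hq, hc, hθ, rfl⟩
      exact NF.single hq hc hθ
    · intro G H _ _ hG hH
      exact hG.add hH
    · intro a G _ hG
      exact hG.smul a
  obtain ⟨P, hP, hP'⟩ := NP.of_mem h1
  obtain ⟨c, hc1, hc2, hc3⟩ := key2
  exact ⟨P, c, hP, hc1, hc2, fun x t => by rw [Pi.add_apply, Pi.add_apply, hP', hc3]⟩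

end defs

end Pool.Agent.Lib.MP_64d474_lc.LF31
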